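import Mathlib

namespace Pool.Agent.H.MP_3cb207_an

/-- the set `Π(X)` of norming pairs -/
def Pr {X : Type} [NormedAddCommGroup X] [NormedSpace ℝ X] (x : X) (f : StrongDual ℝ X) : Prop :=
  ‖x‖ = 1 ∧ ‖f‖ = 1 ∧ f x = 1

/-- the numerical radius -/
noncomputable def nu {X : Type} [NormedAddCommGroup X] [NormedSpace ℝ X] (T : X →L[ℝ] X) : ℝ :=
  sSup {r : ℝ | ∃ (x : X) (f : StrongDual ℝ X), Pr x f ∧ r = |f (T x)|}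

variable (X : Type) [NormedAddCommGroup X] [NormedSpace ℝ X]

/-- the Bishop-Phelps-Bollobas property for the numerical radius -/
def BPBpnu : Prop := ∀ ε : ℝ, 0 < ε → ∃ η : ℝ, 0 < η ∧
  ∀ (T : X →L[ℝ] X) (x₀ : X) (f₀ : StrongDual ℝ X), nu T = 1 → Pr x₀ f₀ → 1 - η < |f₀ (T x₀)| →
    ∃ (S : X →L[ℝ] X) (x₁ : X) (f₁ : StrongDual ℝ X), Pr x₁ f₁ ∧ nu S = 1 ∧ |f₁ (S x₁)| = 1 ∧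
      ‖S - T‖ < ε ∧ ‖x₁ - x₀‖ < ε ∧ ‖f₁ - f₀‖ < ε

/-- property (nu) -/
def Pnu : Prop := ∀ ε : ℝ, 0 < ε → ∃ η : ℝ, 0 < η ∧
  ∀ (T : X →L[ℝ] X) (x₀ : X) (f₀ : StrongDual ℝ X), ‖T‖ = 1 → ‖x₀‖ = 1 → ‖f₀‖ = 1 →
    1 - η < f₀ x₀ → |f₀ (T x₀)| = 1 →
    ∃ (S : X →L[ℝ] X) (x₁ : X) (f₁ : StrongDual ℝ X), ‖x₁‖ = 1 ∧ ‖f₁‖ = 1 ∧ ‖S‖ = 1 ∧
      |f₁ (S x₁)| = 1 ∧ f₁ x₁ = 1 ∧ ‖x₁ - x₀‖ < ε ∧ ‖f₁ - f₀‖ < ε ∧ ‖S - T‖ < ε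

end Pool.Agent.H.MP_3cb207_an
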