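import Mathlib
import Pool.Agent.H.MP_3cb207_an.Defs

namespace Pool.Agent.H.MP_3cb207_an
open Filter Topology

variable {X : Type} [NormedAddCommGroup X] [NormedSpace ℝ X]

lemma pr_le {x : X} {f : StrongDual ℝ X} (h : Pr x f) (T : X →L[ℝ] X) : |f (T x)| ≤ ‖T‖ := by
  have h1 := f.le_opNorm (T x)
  have h2 := T.le_opNorm x
  rw [h.2.1] at h1
  rw [h.1] at h2
  rw [Real.norm_eq_abs] at h1
  linarith

lemma le_nu {x : X} {f : StrongDual ℝ X} (h : Pr x f) (T : X →L[ℝ] X) : |f (T x)| ≤ nu T :=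
  le_csSup ⟨‖T‖, by rintro r ⟨y, g, hg, rfl⟩; exact pr_le hg T⟩ ⟨x, f, h, rfl⟩

lemma nu_le {T : X →L[ℝ] X} {c : ℝ} (hc : 0 ≤ c) (h : ∀ x f, Pr x f → |f (T x)| ≤ c) : nu T ≤ c :=
  Real.sSup_le (by rintro r ⟨y, g, hg, rfl⟩; exact h y g hg) hc

lemma nu_nonneg (T : X →L[ℝ] X) : 0 ≤ nu T :=
  Real.sSup_nonneg (by rintro r ⟨y, g, -, rfl⟩; exact abs_nonneg _)

lemma nu_lip (T S : X →L[ℝ] X) : nu T ≤ nu S + ‖T - S‖ := by
  refine nu_le (add_nonneg (nu_nonneg S) (norm_nonneg (T - S))) fun x f h => ?_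
  have h1 := le_nu h S
  have h2 := pr_le h (T - S)
  rw [ContinuousLinearMap.sub_apply, map_sub] at h2
  have := abs_sub_abs_le_abs_sub (f (T x)) (f (S x))
  linarith

lemma nu_cont : Continuous (nu : (X →L[ℝ] X) → ℝ) := by
  refine (LipschitzWith.of_dist_le_mul (K := 1) fun T S => ?_).continuous
  rw [Real.dist_eq, dist_eq_norm, NNReal.coe_one, one_mul, abs_le]
  have h1 := nu_lip T S
  have h2 := nu_lip S T
  rw [norm_sub_rev] at h2
  constructor <;> linarith

lemma step {ε δ : ℝ} (hε : 0 < ε) (hδ : 0 < δ)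
    (hP : ∀ (x y : X) f g, Pr x f → Pr y g → 1 - δ < f y → ‖y - x‖ ≤ ε ∧ ‖g - f‖ ≤ ε)
    (T : X →L[ℝ] X) (x : X) (f : StrongDual ℝ X) (h : Pr x f)
    (h1 : nu T - ε * δ / 2 < |f (T x)|) {η : ℝ} (hη : 0 < η) :
    ∃ (S : X →L[ℝ] X) (y : X) (g : StrongDual ℝ X), Pr y g ∧ nu S - η < |g (S y)| ∧
      ‖S - T‖ ≤ ε ∧ ‖y - x‖ ≤ ε ∧ ‖g - f‖ ≤ ε := by
  obtain ⟨σ, hσ, hσ2⟩ : ∃ σ : ℝ, |σ| = ε ∧ |f (T x) + σ| = |f (T x)| + ε := by
    rcases le_total 0 (f (T x)) with h2 | h2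
    · exact ⟨ε, abs_of_pos hε, by rw [abs_of_nonneg h2, abs_of_nonneg (by linarith)]⟩
    · exact ⟨-ε, by rw [abs_neg, abs_of_pos hε], by
        rw [abs_of_nonpos h2, abs_of_nonpos (by linarith)]; ring⟩
  set S : X →L[ℝ] X := T + σ • f.smulRight x with hS
  have hSa : ∀ y (g : StrongDual ℝ X), g (S y) = g (T y) + σ * (f y * g x) := by
    intro y g; simp [hS]
  have h2 := le_nu h S
  rw [hSa, h.2.2, mul_one, mul_one, hσ2] at h2
  obtain ⟨r, ⟨y, g, hy, rfl⟩, hr⟩ := exists_lt_of_lt_csSup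
    (s := {r : ℝ | ∃ (x : X) (f : StrongDual ℝ X), Pr x f ∧ r = |f (S x)|}) ⟨_, x, f, h, rfl⟩
    (show nu S - min η (ε * δ / 2) < nu S from sub_lt_self _ (lt_min hη (by positivity)))
  have m1 := min_le_left η (ε * δ / 2)
  have m2 := min_le_right η (ε * δ / 2)
  have h3 : 1 - δ < |f y| := by
    have h4 := abs_add_le (g (T y)) (σ * (f y * g x))
    rw [← hSa, abs_mul, abs_mul, hσ] at h4
    have h5 := le_nu hy T
    have h6 : |g x| ≤ 1 := by
      have := g.le_opNorm x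
      rwa [hy.2.1, h.1, mul_one, Real.norm_eq_abs] at this
    have h7 : ε * (|f y| * |g x|) ≤ ε * |f y| :=
      mul_le_mul_of_nonneg_left (mul_le_of_le_one_right (abs_nonneg _) h6) hε.le
    refine lt_of_mul_lt_mul_left (a := ε) ?_ hε.le
    linarith
  have hn : ‖S - T‖ ≤ ε := by
    rw [hS, add_sub_cancel_left, norm_smul, ContinuousLinearMap.norm_smulRight_apply, h.1, h.2.1,
      Real.norm_eq_abs, hσ]
    simp
  rcases le_total 0 (f y) with h4 | h4
  · rw [abs_of_nonneg h4] at h3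
    exact ⟨S, y, g, hy, by linarith, hn, hP x y f g h hy h3⟩
  · rw [abs_of_nonpos h4] at h3
    have hy' : Pr (-y) (-g) := ⟨by rw [norm_neg, hy.1], by rw [norm_neg, hy.2.1], by simp [hy.2.2]⟩
    refine ⟨S, -y, -g, hy', ?_, hn, hP x (-y) f (-g) h hy' (by rwa [map_neg])⟩
    simp only [map_neg, ContinuousLinearMap.neg_apply, neg_neg]
    linarith

lemma tapp {E F : Type} [NormedAddCommGroup E] [NormedSpace ℝ E] [NormedAddCommGroup F]
    [NormedSpace ℝ F] {u : ℕ → E →L[ℝ] F} {v : ℕ → E} {a : E →L[ℝ] F} {b : E}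
    (hu : Tendsto u atTop (𝓝 a)) (hv : Tendsto v atTop (𝓝 b)) :
    Tendsto (fun n => u n (v n)) atTop (𝓝 (a b)) :=
  ((isBoundedBilinearMap_apply (𝕜 := ℝ) (E := E) (F := F)).continuous.tendsto (a, b)).comp
    (hu.prodMk_nhds hv)

lemma lim {E : Type} [NormedAddCommGroup E] [CompleteSpace E] (u : ℕ → E) {ε : ℝ}
    (h : ∀ n, ‖u (n + 1) - u n‖ ≤ ε / 2 / 2 ^ n) :
    ∃ a, Tendsto u atTop (𝓝 a) ∧ ‖a - u 0‖ ≤ ε := by
  have h1 : ∀ n, dist (u n) (u (n + 1)) ≤ ε / 2 / 2 ^ n := fun n => by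
    rw [dist_comm, dist_eq_norm]; exact h n
  obtain ⟨a, ha⟩ := cauchySeq_tendsto_of_complete (cauchySeq_of_le_geometric_two h1)
  refine ⟨a, ha, ?_⟩
  rw [← dist_eq_norm, dist_comm]
  exact dist_le_of_le_geometric_two_of_tendsto₀ h1 ha

theorem bpb [CompleteSpace X]
    (hP : ∀ ε > 0, ∃ δ > 0, ∀ (x y : X) f g, Pr x f → Pr y g → 1 - δ < f y →
      ‖y - x‖ ≤ ε ∧ ‖g - f‖ ≤ ε) {C : ℝ} (hC0 : 0 ≤ C) (hC : ∀ T : X →L[ℝ] X, ‖T‖ ≤ C * nu T) :
    BPBpnu X := by
  intro ε hε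
  set e := min (1 / 2) (ε / (C + 2)) with he
  have he0 : 0 < e := lt_min (by norm_num) (by positivity)
  have he1 : e ≤ 1 / 2 := min_le_left _ _
  have he2 : e * (C + 2) ≤ ε := by rw [← le_div_iff₀ (by positivity)]; exact min_le_right _ _
  have hp : ∀ n : ℕ, 0 < e / 2 / 2 ^ n := fun n => by positivity
  choose δ' hδ' hP' using fun n : ℕ => hP _ (hp n)
  let δ : ℕ → ℝ := fun n => min (δ' n) 1
  have hδ : ∀ n, 0 < δ n := fun n => lt_min (hδ' n) one_pos
  refine ⟨e / 2 / 2 ^ 0 * δ 0 / 2, by have := hδ 0; positivity, fun T x₀ f₀ hT h0 h1 => ?_⟩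
  let St : ℕ → Type := fun n => {s : (X →L[ℝ] X) × X × StrongDual ℝ X //
    Pr s.2.1 s.2.2 ∧ nu s.1 - e / 2 / 2 ^ n * δ n / 2 < |s.2.2 (s.1 s.2.1)|}
  have hst : ∀ n (s : St n), ∃ t : St (n + 1), ‖t.1.1 - s.1.1‖ ≤ e / 2 / 2 ^ n ∧
      ‖t.1.2.1 - s.1.2.1‖ ≤ e / 2 / 2 ^ n ∧ ‖t.1.2.2 - s.1.2.2‖ ≤ e / 2 / 2 ^ n := by
    intro n s
    obtain ⟨S, y, g, a1, a2, a3⟩ := step (hp n) (hδ n)
      (fun x y f g hx hy h => hP' n x y f g hx hy (by linarith [min_le_left (δ' n) 1]))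
      s.1.1 s.1.2.1 s.1.2.2 s.2.1 s.2.2
      (η := e / 2 / 2 ^ (n + 1) * δ (n + 1) / 2) (by have := hδ (n + 1); positivity)
    exact ⟨⟨(S, y, g), a1, a2⟩, a3⟩
  choose F hF using hst
  let u : ∀ n, St n := fun n => Nat.rec ⟨(T, x₀, f₀), h0, by rw [hT]; exact h1⟩ F n
  obtain ⟨S, hS, hS'⟩ := lim (fun n => (u n).1.1) fun n => (hF n (u n)).1
  obtain ⟨y, hy, hy'⟩ := lim (fun n => (u n).1.2.1) fun n => (hF n (u n)).2.1
  obtain ⟨g, hg, hg'⟩ := lim (fun n => (u n).1.2.2) fun n => (hF n (u n)).2.2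
  change ‖S - T‖ ≤ e at hS'
  change ‖y - x₀‖ ≤ e at hy'
  change ‖g - f₀‖ ≤ e at hg'
  have hyg : Pr y g := by
    refine ⟨tendsto_nhds_unique hy.norm ?_, tendsto_nhds_unique hg.norm ?_,
      tendsto_nhds_unique (tapp hg hy) ?_⟩
    · simp only [(u _).2.1.1]; exact tendsto_const_nhds
    · simp only [(u _).2.1.2.1]; exact tendsto_const_nhds
    · simp only [(u _).2.1.2.2]; exact tendsto_const_nhds
  have hat : nu S ≤ |g (S y)| := by
    have t1 : Tendsto (fun n : ℕ => e / 2 / 2 ^ n) atTop (𝓝 0) :=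
      tendsto_const_nhds.div_atTop (tendsto_pow_atTop_atTop_of_one_lt one_lt_two)
    have t2 := ((nu_cont.tendsto S).comp hS).sub t1
    rw [sub_zero] at t2
    refine le_of_tendsto_of_tendsto' t2 (tapp hg (tapp hS hy)).abs fun n => ?_
    have h2 := (u n).2.2
    have h3 : e / 2 / 2 ^ n * δ n ≤ e / 2 / 2 ^ n :=
      mul_le_of_le_one_right (hp n).le (min_le_right _ _)
    have := hp n
    simp only [Function.comp]
    linarith
  have hat' : |g (S y)| = nu S := le_antisymm (le_nu hyg S) hat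
  have n1 := nu_lip S T
  have n2 := nu_lip T S
  rw [norm_sub_rev] at n2
  have hν : 0 < nu S := by linarith
  have hv : |g (((nu S)⁻¹ • S) y)| = 1 := by
    simp only [ContinuousLinearMap.smul_apply, map_smul, smul_eq_mul, abs_mul, hat']
    rw [abs_of_pos (inv_pos.2 hν), inv_mul_cancel₀ hν.ne']
  have hn1 : nu ((nu S)⁻¹ • S) = 1 := by
    refine le_antisymm (nu_le zero_le_one fun x f h => ?_) (hv ▸ le_nu hyg _)
    simp only [ContinuousLinearMap.smul_apply, map_smul, smul_eq_mul, abs_mul]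
    rw [abs_of_pos (inv_pos.2 hν), inv_mul_le_iff₀ hν, mul_one]
    exact le_nu h S
  refine ⟨(nu S)⁻¹ • S, y, g, hyg, hn1, hv, ?_, by nlinarith, by nlinarith⟩
  have e1 : (nu S)⁻¹ • S - T = (1 - nu S) • ((nu S)⁻¹ • S) + (S - T) := by
    rw [sub_smul, one_smul, smul_smul, mul_inv_cancel₀ hν.ne', one_smul]; abel
  have h2 := hC ((nu S)⁻¹ • S)
  rw [hn1, mul_one] at h2
  rw [e1]
  refine (norm_add_le _ _).trans_lt ?_
  rw [norm_smul, Real.norm_eq_abs]
  have h3 : |1 - nu S| ≤ e := abs_le.2 ⟨by linarith, by linarith⟩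
  have h4 := mul_le_mul h3 h2 (norm_nonneg ((nu S)⁻¹ • S)) he0.le
  nlinarith

lemma comb {ι : Type} [Fintype ι] [DecidableEq ι] (m : ι → ι → ℝ) {ν : ℝ} (hν : 0 ≤ ν)
    (h : ∀ a : ι → ℝ, |∑ i, ∑ j, a i ^ 3 * m i j * a j| ≤ ν * ∑ i, a i ^ 4) (a c : ι → ℝ)
    (ha : ∑ i, a i ^ 4 ≤ 1) (hc : ∑ i, c i ^ 4 ≤ 1) :
    ∑ i, ∑ j, a i ^ 3 * m i j * c j ≤ 25 * ν := by
  have disj : ∀ a c : ι → ℝ, ∑ i, a i ^ 4 ≤ 1 → ∑ i, c i ^ 4 ≤ 1 → (∀ i, a i = 0 ∨ c i = 0) →
      ∑ i, ∑ j, a i ^ 3 * m i j * c j ≤ 6 * ν := by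
    intro a c ha hc hd
    have q : ∀ s : ℝ, s ^ 4 ≤ 1 → |∑ i, ∑ j, a i ^ 3 * m i j * a j +
        s * ∑ i, ∑ j, a i ^ 3 * m i j * c j + s ^ 3 * ∑ i, ∑ j, c i ^ 3 * m i j * a j +
        s ^ 4 * ∑ i, ∑ j, c i ^ 3 * m i j * c j| ≤ 2 * ν := by
      intro s hs
      have h1 := h fun i => a i + s * c i
      have e1 : ∀ i, (a i + s * c i) ^ 4 = a i ^ 4 + s ^ 4 * c i ^ 4 := fun i => by
        rcases hd i with h | h <;> simp [h, mul_pow]
      have e2 : ∀ i j, (a i + s * c i) ^ 3 * m i j * (a j + s * c j) = a i ^ 3 * m i j * a j +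
          s * (a i ^ 3 * m i j * c j) + s ^ 3 * (c i ^ 3 * m i j * a j) +
          s ^ 4 * (c i ^ 3 * m i j * c j) := fun i j => by
        rcases hd i with h | h <;> simp only [h] <;> ring
      simp only [e1, e2, Finset.sum_add_distrib, ← Finset.mul_sum] at h1
      refine h1.trans ?_
      have h2 : s ^ 4 * ∑ i, c i ^ 4 ≤ 1 :=
        mul_le_one₀ hs (Finset.sum_nonneg fun i _ => by positivity) hc
      nlinarith
    have q1 := abs_le.1 (q 1 (by norm_num))
    have q2 := abs_le.1 (q (-1) (by norm_num))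
    have q3 := abs_le.1 (q (1 / 2) (by norm_num))
    have q4 := abs_le.1 (q (-1 / 2) (by norm_num))
    linarith [q1.1, q1.2, q2.1, q2.2, q3.1, q3.2, q4.1, q4.2]
  have diag : ∑ i, a i ^ 3 * m i i * c i ≤ ν := by
    have h1 : ∀ i, |m i i| ≤ ν := by
      intro i
      have := h (Pi.single i 1)
      simpa [Pi.single_apply] using this
    have h2 : ∀ i, a i ^ 3 * m i i * c i ≤ ν * ((3 * a i ^ 4 + c i ^ 4) / 4) := by
      intro i
      have h3 : |a i ^ 3 * c i| ≤ (3 * a i ^ 4 + c i ^ 4) / 4 := by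
        rw [abs_le]
        constructor
        · nlinarith [mul_nonneg (sq_nonneg (a i + c i)) (add_nonneg (sq_nonneg (a i - c i))
            (by positivity : 0 ≤ 2 * a i ^ 2))]
        · nlinarith [mul_nonneg (sq_nonneg (a i - c i)) (add_nonneg (sq_nonneg (a i + c i))
            (by positivity : 0 ≤ 2 * a i ^ 2))]
      have h4 := mul_le_mul (h1 i) h3 (abs_nonneg _) hν
      rw [← abs_mul] at h4
      have := le_abs_self (m i i * (a i ^ 3 * c i))
      linarith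
    refine (Finset.sum_le_sum fun i _ => h2 i).trans ?_
    rw [← Finset.mul_sum, ← Finset.sum_div, Finset.sum_add_distrib, ← Finset.mul_sum]
    nlinarith
  have cnt : ∀ i j : ι, ∑ b : ι → Bool, (if b i = true ∧ b j = false then (4 : ℝ) else 0) =
      ∑ _b : ι → Bool, (if i = j then (0 : ℝ) else 1) := by
    intro i j
    split_ifs with hij
    · subst hij; simp
    let r : ι → (ι → Bool) → ℝ := fun k b => if b k then 1 else -1
    have flip : ∀ (k : ι) (g : (ι → Bool) → ℝ), (∀ b, g (Function.update b k (!b k)) = -g b) →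
        ∑ b, g b = 0 := by
      intro k g hg
      have hi : Function.Involutive fun b : ι → Bool => Function.update b k (!b k) := fun b => by
        simp
      have := Equiv.sum_comp hi.toPerm g
      simp only [Function.Involutive.coe_toPerm, hg, Finset.sum_neg_distrib] at this
      linarith
    have e : ∀ b : ι → Bool, (if b i = true ∧ b j = false then (4 : ℝ) else 0) =
        1 + r i b - r j b - r i b * r j b := by
      intro b
      simp only [r]
      cases b i <;> cases b j <;> norm_num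
    simp only [e, Finset.sum_sub_distrib, Finset.sum_add_distrib]
    rw [flip i (r i) (fun b => by simp only [r, Function.update_self]; cases b i <;> simp),
      flip j (r j) (fun b => by simp only [r, Function.update_self]; cases b j <;> simp),
      flip i (fun b => r i b * r j b) (fun b => by
        simp only [r, Function.update_self, Function.update_of_ne (Ne.symm hij)]
        cases b i <;> cases b j <;> simp)]
    simp
  have avg : ∑ _b : ι → Bool, ∑ i, ∑ j, a i ^ 3 * m i j * c j * (if i = j then (0 : ℝ) else 1)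
      ≤ ∑ _b : ι → Bool, 24 * ν := by
    have e : ∑ _b : ι → Bool, ∑ i, ∑ j, a i ^ 3 * m i j * c j * (if i = j then (0 : ℝ) else 1) =
        ∑ b : ι → Bool, ∑ i, ∑ j, a i ^ 3 * m i j * c j *
          (if b i = true ∧ b j = false then (4 : ℝ) else 0) := by
      rw [Finset.sum_comm, Finset.sum_comm (s := Finset.univ (α := ι → Bool))]
      refine Finset.sum_congr rfl fun i _ => ?_
      rw [Finset.sum_comm, Finset.sum_comm (s := Finset.univ (α := ι → Bool))]
      refine Finset.sum_congr rfl fun j _ => ?_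
      rw [← Finset.mul_sum, ← Finset.mul_sum, cnt]
    rw [e]
    refine Finset.sum_le_sum fun b _ => ?_
    have h1 := disj (fun i => if b i = true then a i else 0) (fun i => if b i = false then c i else 0)
      (le_trans (Finset.sum_le_sum fun i _ => by split_ifs <;> simp; positivity) ha)
      (le_trans (Finset.sum_le_sum fun i _ => by split_ifs <;> simp; positivity) hc)
      (fun i => by cases b i <;> simp)
    have e2 : ∀ i j, a i ^ 3 * m i j * c j * (if b i = true ∧ b j = false then (4 : ℝ) else 0) =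
        4 * ((if b i = true then a i else 0) ^ 3 * m i j * (if b j = false then c j else 0)) := by
      intro i j
      cases b i <;> cases b j <;> simp
      ring
    simp only [e2, ← Finset.mul_sum]
    linarith
  simp only [Finset.sum_const, nsmul_eq_mul] at avg
  have avg' := le_of_mul_le_mul_left avg (by exact_mod_cast Finset.univ_nonempty.card_pos)
  have e3 : ∑ i, ∑ j, a i ^ 3 * m i j * c j = ∑ i, a i ^ 3 * m i i * c i +
      ∑ i, ∑ j, a i ^ 3 * m i j * c j * (if i = j then (0 : ℝ) else 1) := by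
    rw [← Finset.sum_add_distrib]
    refine Finset.sum_congr rfl fun i _ => ?_
    have : ∀ j, a i ^ 3 * m i j * c j = (if i = j then a i ^ 3 * m i j * c j else 0) +
        a i ^ 3 * m i j * c j * (if i = j then (0 : ℝ) else 1) := fun j => by split_ifs <;> simp
    rw [Finset.sum_congr rfl fun j _ => this j, Finset.sum_add_distrib, Finset.sum_ite_eq]
    simp
  rw [e3]
  linarith

end Pool.Agent.H.MP_3cb207_an
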