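import Mathlib
import Pool.Agent.H.MP_3cb207_an.A

namespace Pool.Agent.H.MP_3cb207_an
open Filter Topology

variable {X : Type} [NormedAddCommGroup X] [NormedSpace ℝ X] {co : ℕ → StrongDual ℝ X}
  (hs : ∀ x, HasSum (fun i => co i x ^ 4) (‖x‖ ^ 4))
include hs

lemma clark (x y : X) : ‖x + y‖ ^ 4 + ‖x - y‖ ^ 4 ≤ 8 * (‖x‖ ^ 4 + ‖y‖ ^ 4) := by
  refine hasSum_le (fun i => ?_) ((hs (x + y)).add (hs (x - y))) (((hs x).add (hs y)).mul_left 8)
  simp only [map_add, map_sub]
  nlinarith [sq_nonneg (co i x ^ 2 - co i y ^ 2)]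

lemma smooth (x u : X) (t : ℝ) (hx : ‖x‖ = 1) (hu : ‖u‖ = 1) (ht : t ^ 2 ≤ 1) :
    ‖x + t • u‖ + ‖x - t • u‖ ≤ 2 + 4 * t ^ 2 := by
  have h1 : ‖x + t • u‖ ^ 4 + ‖x - t • u‖ ^ 4 ≤
      (2 + 6 * t ^ 2) * ‖x‖ ^ 4 + (6 * t ^ 2 + 2 * t ^ 4) * ‖u‖ ^ 4 := by
    refine hasSum_le (fun i => ?_) ((hs _).add (hs _)) (((hs x).mul_left _).add ((hs u).mul_left _))
    simp only [map_add, map_sub, map_smul, smul_eq_mul]
    nlinarith [mul_nonneg (sq_nonneg t) (sq_nonneg (co i x ^ 2 - co i u ^ 2))]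
  rw [hx, hu] at h1
  have h2 : ∀ a : ℝ, 4 * a ≤ a ^ 4 + 3 := fun a => by
    nlinarith [mul_nonneg (sq_nonneg (a - 1)) (add_nonneg (sq_nonneg (a + 1)) zero_le_two)]
  nlinarith [h2 ‖x + t • u‖, h2 ‖x - t • u‖, sq_nonneg t]

lemma propP : ∀ ε > 0, ∃ δ > 0, ∀ (x y : X) f g, Pr x f → Pr y g → 1 - δ < f y →
      ‖y - x‖ ≤ ε ∧ ‖g - f‖ ≤ ε := by
  intro ε hε
  set t := min (ε / 8) 1 with ht
  have ht0 : 0 < t := lt_min (by positivity) one_pos
  have ht1 : t ≤ ε / 8 := min_le_left _ _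
  have ht2 : t ≤ 1 := min_le_right _ _
  set r := t * ε / 2 with hr
  have hr0 : 0 < r := by positivity
  refine ⟨min (r ^ 4 / 32) 1, by positivity, fun x y f g hx hy h => ?_⟩
  have hδ1 := min_le_left (r ^ 4 / 32) 1
  have hδ2 := min_le_right (r ^ 4 / 32) 1
  have hδ0 : 0 < min (r ^ 4 / 32) 1 := by positivity
  set δ := min (r ^ 4 / 32) 1
  have h1 : ‖y - x‖ ≤ r := by
    have h2 := clark hs y x
    have h3 := (le_abs_self _).trans (f.le_opNorm (y + x))
    rw [map_add, hx.2.2, hx.2.1] at h3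
    rw [hx.1, hy.1] at h2
    have h4 : (2 - δ) ^ 4 ≤ ‖y + x‖ ^ 4 := pow_le_pow_left₀ (by linarith) (by linarith) 4
    refine (pow_le_pow_iff_left₀ (norm_nonneg _) hr0.le four_ne_zero).1 ?_
    nlinarith [mul_nonneg (sq_nonneg δ) (add_nonneg (sq_nonneg (δ - 4)) (by norm_num : (0 : ℝ) ≤ 8))]
  refine ⟨h1.trans (by nlinarith), ?_⟩
  have h2 : ∀ u, ‖u‖ = 1 → (g - f) u ≤ ε := by
    intro u hu
    have h3 := smooth hs y u t hy.1 hu (by nlinarith)
    have h4 := (le_abs_self _).trans (g.le_opNorm (y + t • u))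
    have h5 := (le_abs_self _).trans (f.le_opNorm (x - t • u))
    have h6 := norm_sub_le (y - t • u) (y - x)
    have e : y - t • u - (y - x) = x - t • u := by abel
    rw [e] at h6
    simp only [map_add, map_sub, map_smul, smul_eq_mul, hx.2.1, hx.2.2, hy.2.1, hy.2.2] at h4 h5
    rw [ContinuousLinearMap.sub_apply]
    refine le_of_mul_le_mul_left ?_ ht0
    nlinarith
  refine ContinuousLinearMap.opNorm_le_of_unit_norm hε.le fun u hu => ?_
  have h3 := h2 (-u) (by rwa [norm_neg])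
  rw [map_neg] at h3
  rw [Real.norm_eq_abs, abs_le]
  exact ⟨by linarith, h2 u hu⟩

lemma fin_le (x : X) (s : Finset ℕ) : ∑ i ∈ s, co i x ^ 4 ≤ ‖x‖ ^ 4 :=
  sum_le_hasSum s (fun i _ => by positivity) (hs x)

lemma co_le (x : X) (i : ℕ) : |co i x| ≤ ‖x‖ := by
  refine (pow_le_pow_iff_left₀ (abs_nonneg _) (norm_nonneg _) four_ne_zero).1 ?_
  have := fin_le hs x {i}
  rw [Finset.sum_singleton] at this
  rwa [Even.pow_abs (by decide)]

variable {e : ℕ → X} (he : ∀ i j, co i (e j) = if i = j then 1 else 0)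
include he

omit hs in
lemma co_vec (n : ℕ) (a : ℕ → ℝ) (i : ℕ) :
    co i (∑ j ∈ Finset.range n, a j • e j) = if i < n then a i else 0 := by
  simp [he]

lemma norm_vec (n : ℕ) (a : ℕ → ℝ) :
    ‖∑ j ∈ Finset.range n, a j • e j‖ ^ 4 = ∑ j ∈ Finset.range n, a j ^ 4 := by
  refine (hs _).unique ?_
  have := hasSum_sum_of_ne_finset_zero (s := Finset.range n)
    (f := fun i => co i (∑ j ∈ Finset.range n, a j • e j) ^ 4) (L := SummationFilter.unconditional ℕ)
    (fun i hi => by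
      rw [co_vec he, if_neg (by simpa using hi)]; simp)
  convert this using 1
  refine Finset.sum_congr rfl fun i hi => ?_
  rw [co_vec he, if_pos (Finset.mem_range.1 hi)]

lemma quart (T : X →L[ℝ] X) (n : ℕ) (a : ℕ → ℝ) :
    |∑ i ∈ Finset.range n, ∑ j ∈ Finset.range n, a i ^ 3 * co i (T (e j)) * a j| ≤
      nu T * ∑ i ∈ Finset.range n, a i ^ 4 := by
  set v := ∑ j ∈ Finset.range n, a j • e j with hv
  have hN := norm_vec hs he n a
  rw [← hv] at hN
  let φ : StrongDual ℝ X := ∑ i ∈ Finset.range n, a i ^ 3 • co i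
  have hφ : ∀ y, φ y = ∑ i ∈ Finset.range n, a i ^ 3 * co i y := fun y => by simp [φ]
  have e1 : ∑ i ∈ Finset.range n, ∑ j ∈ Finset.range n, a i ^ 3 * co i (T (e j)) * a j =
      φ (T v) := by
    rw [hφ]
    refine Finset.sum_congr rfl fun i _ => ?_
    simp only [hv, map_sum, map_smul, smul_eq_mul, Finset.mul_sum]
    exact Finset.sum_congr rfl fun j _ => by ring
  rw [e1, ← hN]
  by_cases h0 : v = 0
  · simp [h0]
  have hn : 0 < ‖v‖ := norm_pos_iff.2 h0
  have hφv : φ v = ‖v‖ ^ 4 := by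
    rw [hφ, hN]
    refine Finset.sum_congr rfl fun i hi => ?_
    rw [hv, co_vec he, if_pos (Finset.mem_range.1 hi)]; ring
  have h1 : ∀ u, ‖u‖ = 1 → φ u ≤ ‖v‖ ^ 3 := by
    intro u hu
    have h2 := fin_le hs u (Finset.range n)
    rw [hu] at h2
    have h3 : ‖v‖ * φ u ≤ ∑ i ∈ Finset.range n, (3 * a i ^ 4 + ‖v‖ ^ 4 * co i u ^ 4) / 4 := by
      rw [hφ, Finset.mul_sum]
      refine Finset.sum_le_sum fun i _ => ?_
      nlinarith [mul_nonneg (sq_nonneg (a i - ‖v‖ * co i u))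
        (add_nonneg (sq_nonneg (a i + ‖v‖ * co i u)) (by positivity : 0 ≤ 2 * a i ^ 2))]
    rw [← Finset.sum_div, Finset.sum_add_distrib, ← Finset.mul_sum, ← Finset.mul_sum, ← hN] at h3
    refine le_of_mul_le_mul_left ?_ hn
    nlinarith [mul_le_mul_of_nonneg_left h2 (by positivity : 0 ≤ ‖v‖ ^ 4)]
  have h2 : ‖φ‖ = ‖v‖ ^ 3 := by
    refine le_antisymm (ContinuousLinearMap.opNorm_le_of_unit_norm (by positivity) fun u hu => ?_) ?_
    · have h3 := h1 (-u) (by rwa [norm_neg])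
      rw [map_neg] at h3
      rw [Real.norm_eq_abs, abs_le]
      exact ⟨by linarith, h1 u hu⟩
    · have h3 := (le_abs_self _).trans (φ.le_opNorm v)
      rw [hφv] at h3
      refine le_of_mul_le_mul_right ?_ hn
      linarith
  have h3 : Pr (‖v‖⁻¹ • v) ((‖v‖ ^ 3)⁻¹ • φ) := by
    refine ⟨?_, ?_, ?_⟩
    · rw [norm_smul, norm_inv, norm_norm, inv_mul_cancel₀ hn.ne']
    · rw [norm_smul, h2, norm_inv, Real.norm_eq_abs, abs_of_pos (by positivity),
        inv_mul_cancel₀ (by positivity)]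
    · simp only [map_smul, ContinuousLinearMap.smul_apply, smul_eq_mul, hφv]
      field_simp
  have h4 := le_nu h3 T
  simp only [map_smul, ContinuousLinearMap.smul_apply, smul_eq_mul, abs_mul, abs_inv, abs_pow,
    abs_norm] at h4
  have e2 : |φ (T v)| = ‖v‖⁻¹ * ((‖v‖ ^ 3)⁻¹ * |φ (T v)|) * ‖v‖ ^ 4 := by field_simp
  rw [e2]
  exact mul_le_mul_of_nonneg_right h4 (by positivity)

lemma index (hx : ∀ x, HasSum (fun i => co i x • e i) x) (T : X →L[ℝ] X) : ‖T‖ ≤ 25 * nu T := by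
  have hν := nu_nonneg T
  have h1 : ∀ (n : ℕ) (a c : ℕ → ℝ), ∑ i ∈ Finset.range n, a i ^ 4 ≤ 1 →
      ∑ i ∈ Finset.range n, c i ^ 4 ≤ 1 →
      ∑ i ∈ Finset.range n, ∑ j ∈ Finset.range n, a i ^ 3 * co i (T (e j)) * c j ≤ 25 * nu T := by
    intro n a c ha hc
    have := comb (ι := Fin n) (fun i j => co i (T (e j))) hν (fun b => by
      have h2 := quart hs he T n fun i => if h : i < n then b ⟨i, h⟩ else 0
      simpa [Finset.sum_range] using h2) (fun i => a i) (fun i => c i)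
      (by rwa [Finset.sum_range] at ha) (by rwa [Finset.sum_range] at hc)
    simpa [Finset.sum_range] using this
  refine ContinuousLinearMap.opNorm_le_of_unit_norm (by positivity) fun c hc => ?_
  have h2 : ∀ (n : ℕ) (a : ℕ → ℝ), ∑ i ∈ Finset.range n, a i ^ 4 ≤ 1 →
      ∑ i ∈ Finset.range n, a i ^ 3 * co i (T c) ≤ 25 * nu T := by
    intro n a ha
    have t1 : Tendsto (fun m => ∑ i ∈ Finset.range n,
        a i ^ 3 * co i (T (∑ j ∈ Finset.range m, co j c • e j))) atTop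
        (𝓝 (∑ i ∈ Finset.range n, a i ^ 3 * co i (T c))) :=
      (Continuous.tendsto (f := fun y => ∑ i ∈ Finset.range n, a i ^ 3 * co i (T y))
        (by fun_prop) c).comp (hx c).tendsto_sum_nat
    refine le_of_tendsto t1 ?_
    filter_upwards [eventually_ge_atTop n] with m hm
    have hsub : ∀ g : ℕ → ℝ, ∑ i ∈ Finset.range m, (if i < n then g i else 0) =
        ∑ i ∈ Finset.range n, g i := by
      intro g
      rw [← Finset.sum_filter]
      congr 1
      ext i; simp; omega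
    have h3 := h1 m (fun i => if i < n then a i else 0) (fun j => co j c)
      (by
        refine le_trans (le_of_eq ?_) ha
        rw [← hsub]
        exact Finset.sum_congr rfl fun i _ => by split_ifs <;> simp)
      (by simpa [hc] using fin_le hs c (Finset.range m))
    refine le_trans (le_of_eq ?_) h3
    rw [← hsub]
    refine Finset.sum_congr rfl fun i _ => ?_
    split_ifs
    · simp only [map_sum, map_smul, smul_eq_mul, Finset.mul_sum]
      exact Finset.sum_congr rfl fun j _ => by ring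
    · simp
  refine (pow_le_pow_iff_left₀ (norm_nonneg _) (by positivity) four_ne_zero).1 ?_
  refine le_of_tendsto' (hs (T c)).tendsto_sum_nat fun n => ?_
  rw [← norm_vec hs he n fun i => co i (T c)]
  have hN := norm_vec hs he n fun i => co i (T c)
  set N := ‖∑ j ∈ Finset.range n, co j (T c) • e j‖
  refine pow_le_pow_left₀ (norm_nonneg _) ?_ 4
  rcases (norm_nonneg _ : 0 ≤ N).eq_or_lt with h0 | h0
  · rw [← h0]; positivity
  have h3 := h2 n (fun i => co i (T c) / N) (by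
    simp only [div_pow, ← Finset.sum_div, ← hN]
    rw [div_self (by positivity)])
  have e1 : ∑ i ∈ Finset.range n, (co i (T c) / N) ^ 3 * co i (T c) = N := by
    have : ∀ i, (co i (T c) / N) ^ 3 * co i (T c) = co i (T c) ^ 4 / N ^ 3 := fun i => by ring
    simp only [this, ← Finset.sum_div, ← hN]
    field_simp
  rwa [e1] at h3

lemma prop_pos (S : X →L[ℝ] X) (hS : ‖S‖ ≤ 1) (x : X) (hx1 : ‖x‖ = 1) (hSx : S x = x) (i : ℕ)
    (hd : 9 / 10 ≤ co (i + 1) (S (e i))) (ha : 0 < co i x) : 0 < co (i + 1) x := by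
  set w := S (e i) with hw
  have hsum : Summable fun j => co j x ^ 3 * co j w := by
    refine Summable.of_norm_bounded ((((hs x).mul_left 3).add (hs w)).div_const 4).summable
      fun j => ?_
    rw [Real.norm_eq_abs, abs_le]
    constructor
    · nlinarith [mul_nonneg (sq_nonneg (co j x + co j w)) (add_nonneg (sq_nonneg (co j x - co j w))
        (by positivity : 0 ≤ 2 * co j x ^ 2))]
    · nlinarith [mul_nonneg (sq_nonneg (co j x - co j w)) (add_nonneg (sq_nonneg (co j x + co j w))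
        (by positivity : 0 ≤ 2 * co j x ^ 2))]
  set κ := ∑' j, co j x ^ 3 * co j w
  set a := co i x with ha'
  set b := co (i + 1) x
  set d := co (i + 1) w
  have key : ∀ t : ℝ, 6 * b ^ 2 * (t * d) ^ 2 + 4 * b * (t * d) ^ 3 + (t * d) ^ 4 + 4 * t * κ ≤
      (a + t) ^ 4 - a ^ 4 := by
    intro t
    have h1 : ‖x + t • w‖ ^ 4 ≤ ‖x + t • e i‖ ^ 4 := by
      refine pow_le_pow_left₀ (norm_nonneg _) ?_ 4
      have := S.le_opNorm (x + t • e i)
      rw [map_add, map_smul, hSx] at this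
      exact this.trans (mul_le_of_le_one_left (norm_nonneg _) hS)
    have h2 : ‖x + t • e i‖ ^ 4 - ‖x‖ ^ 4 = (a + t) ^ 4 - a ^ 4 := by
      refine ((hs _).sub (hs x)).unique ?_
      have := hasSum_single (f := fun j => co j (x + t • e i) ^ 4 - co j x ^ 4) i
        (L := SummationFilter.unconditional ℕ) (fun j hj => by simp [he, hj])
      simpa [he] using this
    have h3 := le_hasSum (((hs (x + t • w)).sub (hs x)).sub (hsum.hasSum.mul_left (4 * t))) (i + 1)
      (fun j _ => by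
        simp only [map_add, map_smul, smul_eq_mul]
        nlinarith [mul_nonneg (sq_nonneg (t * co j w)) (add_nonneg
          (sq_nonneg (t * co j w + 2 * co j x)) (by positivity : 0 ≤ 2 * co j x ^ 2))])
    simp only [map_add, map_smul, smul_eq_mul] at h3
    nlinarith
  have ha1 : a ≤ 1 := (le_abs_self _).trans ((co_le hs x i).trans hx1.le)
  have hk : κ = a ^ 3 := by
    by_contra hne
    set k := κ - a ^ 3 with hk
    have hk0 : 0 < |k| := abs_pos.2 (sub_ne_zero.2 hne)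
    set t := k / (3 + |k|) with ht
    have ht1 : |t| ≤ 1 := by
      rw [ht, abs_div, abs_of_pos (by positivity : 0 < 3 + |k|), div_le_one (by positivity)]
      linarith
    have htk : k = t * (3 + |k|) := by rw [ht]; field_simp
    have ht0 : 0 < t ^ 2 := by
      have : t ≠ 0 := div_ne_zero (abs_pos.1 hk0) (by positivity)
      positivity
    have h1 := key t
    have h2 : 0 ≤ 6 * b ^ 2 * (t * d) ^ 2 + 4 * b * (t * d) ^ 3 + (t * d) ^ 4 := by
      nlinarith [mul_nonneg (sq_nonneg (t * d)) (add_nonneg (sq_nonneg (t * d + 2 * b))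
        (by positivity : 0 ≤ 2 * b ^ 2))]
    have h3 : 4 * t * k ≤ t ^ 2 * (6 * a ^ 2 + 4 * a * t + t ^ 2) := by rw [hk]; nlinarith
    have h4 : 6 * a ^ 2 + 4 * a * t + t ^ 2 ≤ 11 := by
      rw [abs_le] at ht1
      nlinarith [ht1.1, ht1.2]
    have h5 : 4 * t * k = t ^ 2 * (12 + 4 * |k|) := by
      conv_lhs => rw [htk]
      ring
    have h6 := mul_le_mul_of_nonneg_left h4 ht0.le
    nlinarith
  by_contra hb
  push Not at hb
  have h1 := key (-3 * a)
  rw [hk] at h1
  have hd0 : 0 < d := by linarith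
  have h2 : 0 ≤ 4 * b * (-3 * a * d) ^ 3 := by
    have : 4 * b * (-3 * a * d) ^ 3 = 108 * (-b) * (a * d) ^ 3 := by ring
    rw [this]
    exact mul_nonneg (by linarith) (by positivity)
  have h3 : (9 / 10) ^ 4 ≤ d ^ 4 := pow_le_pow_left₀ (by norm_num) hd 4
  have h4 : 0 < a ^ 4 := by positivity
  have h5 : 0 ≤ 6 * b ^ 2 * (-3 * a * d) ^ 2 := by positivity
  nlinarith [mul_le_mul_of_nonneg_left h3 h4.le]

lemma not_pnu (T : X →L[ℝ] X) (hT : ∀ x, ‖T x‖ = ‖x‖) (hTe : ∀ i, T (e i) = e (i + 1)) :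
    ¬ Pnu X := by
  intro H
  obtain ⟨η, hη, H⟩ := H (1 / 10) (by norm_num)
  have he1 : ∀ i, ‖e i‖ = 1 := by
    intro i
    refine (pow_left_inj₀ (norm_nonneg _) zero_le_one four_ne_zero).1 ((hs _).unique ?_)
    have := hasSum_single (f := fun j => co j (e i) ^ 4) i
        (L := SummationFilter.unconditional ℕ) (fun j hj => by simp [he, hj])
    simpa [he] using this
  have hT1 : ‖T‖ = 1 := by
    refine le_antisymm (T.opNorm_le_bound zero_le_one fun x => by rw [hT, one_mul]) ?_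
    have := T.le_opNorm (e 0)
    rwa [hT, he1, mul_one] at this
  set ζ := min η (1 / 10) with hζ
  have hζ0 : 0 < ζ := lt_min hη (by norm_num)
  obtain ⟨N, hN⟩ := exists_nat_gt ((4 / ζ) ^ 4)
  let u : ℕ → ℝ := fun i => if i < N then 1 else -1
  set U := ∑ j ∈ Finset.range (N + N), u j • e j with hU
  have hU4 : ‖U‖ ^ 4 = 2 * N := by
    rw [hU, norm_vec hs he]
    have : ∀ j, u j ^ 4 = 1 := fun j => by simp only [u]; split_ifs <;> norm_num
    simp [this]; ring
  have hN0 : (0 : ℝ) < N := lt_trans (by positivity) hN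
  have hUb : 4 / ζ < ‖U‖ := lt_of_pow_lt_pow_left₀ 4 (norm_nonneg _) (by linarith)
  have hU0 : 0 < ‖U‖ := lt_trans (by positivity) hUb
  have hTU : ‖T U - U‖ ≤ 4 := by
    have e1 : U = ∑ j ∈ Finset.range N, e j - ∑ j ∈ Finset.range N, e (N + j) := by
      rw [hU, Finset.sum_range_add, sub_eq_add_neg, ← Finset.sum_neg_distrib]
      congr 1
      · exact Finset.sum_congr rfl fun j hj => by simp [u, Finset.mem_range.1 hj]
      · exact Finset.sum_congr rfl fun j _ => by simp [u]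
    have e2 : T U - U = (e N - e 0) - (e (N + N) - e (N + 0)) := by
      rw [← Finset.sum_range_sub e N, ← Finset.sum_range_sub (fun j => e (N + j)) N]
      rw [e1]
      simp only [map_sub, map_sum, hTe, Finset.sum_sub_distrib, add_assoc]
      abel
    rw [e2]
    have h1 := norm_sub_le (e N - e 0) (e (N + N) - e (N + 0))
    have h2 := norm_sub_le (e N) (e 0)
    have h3 := norm_sub_le (e (N + N)) (e (N + 0))
    simp only [he1] at h2 h3
    linarith
  set x₀ := ‖U‖⁻¹ • U with hx₀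
  have hx0 : ‖x₀‖ = 1 := by rw [hx₀, norm_smul, norm_inv, norm_norm, inv_mul_cancel₀ hU0.ne']
  have hTx : ‖T x₀ - x₀‖ < ζ := by
    rw [hx₀, map_smul, ← smul_sub, norm_smul, norm_inv, norm_norm, inv_mul_lt_iff₀ hU0]
    rw [div_lt_iff₀ hζ0] at hUb
    linarith
  obtain ⟨f₀, hf1, hf2⟩ := exists_dual_vector ℝ (T x₀) (by rw [hT, hx0]; norm_num)
  rw [hT, hx0] at hf2
  replace hf2 : f₀ (T x₀) = 1 := hf2
  obtain ⟨S, x, f, a1, a2, a3, a4, a5, a6, -, a8⟩ := H T x₀ f₀ hT1 hx0 hf1 (by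
    have h1 := (le_abs_self _).trans (f₀.le_opNorm (T x₀ - x₀))
    rw [map_sub, hf2, hf1] at h1
    linarith [min_le_left η (1 / 10)]) (by rw [hf2, abs_one])
  have hSx1 : ‖S x‖ ≤ 1 := by
    have := S.le_opNorm x
    rwa [a3, a1, mul_one] at this
  have hcl := clark hs x (S x)
  have hS4 : ‖S x‖ ^ 4 ≤ 1 := pow_le_one₀ (norm_nonneg _) hSx1
  rw [a1] at hcl
  have hclose : ‖x - S x‖ < 1 := by
    have e1 : x - S x = (x - x₀) - (T x₀ - x₀) - T (x - x₀) - (S - T) x := by
      simp only [map_sub, ContinuousLinearMap.sub_apply]; abel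
    rw [e1]
    have h1 := norm_sub_le ((x - x₀) - (T x₀ - x₀) - T (x - x₀)) ((S - T) x)
    have h2 := norm_sub_le ((x - x₀) - (T x₀ - x₀)) (T (x - x₀))
    have h3 := norm_sub_le (x - x₀) (T x₀ - x₀)
    have h4 := (S - T).le_opNorm x
    rw [hT] at h2
    rw [a1] at h4
    linarith [min_le_right η (1 / 10)]
  have hSx : S x = x := by
    rcases (abs_eq zero_le_one).1 a4 with h | h
    · have h1 := (le_abs_self _).trans (f.le_opNorm (x + S x))
      rw [map_add, a5, h, a2] at h1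
      have h2 : (2 : ℝ) ^ 4 ≤ ‖x + S x‖ ^ 4 := pow_le_pow_left₀ (by norm_num) (by linarith) 4
      have h3 : ‖x - S x‖ ^ 4 = 0 := le_antisymm (by linarith) (by positivity)
      exact (sub_eq_zero.1 (norm_eq_zero.1 (pow_eq_zero_iff four_ne_zero |>.1 h3))).symm
    · have h1 := (le_abs_self _).trans (f.le_opNorm (x - S x))
      rw [map_sub, a5, h, a2] at h1
      linarith
  have hpos : ∀ i, 0 < co i x → ∀ j, i ≤ j → 0 < co j x := by
    intro i hi j hj
    induction j, hj using Nat.le_induction with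
    | base => exact hi
    | succ j _ ih =>
      refine prop_pos hs he S a3.le x a1 hSx j ?_ ih
      have h1 := co_le hs ((S - T) (e j)) (j + 1)
      have h2 := (S - T).le_opNorm (e j)
      rw [he1] at h2
      rw [ContinuousLinearMap.sub_apply, map_sub, hTe, he, if_pos rfl] at h1
      rw [ContinuousLinearMap.sub_apply, hTe] at h2
      linarith [(abs_le.1 h1).1]
  have hc0 : ∀ j < N + N, co j x₀ = ‖U‖⁻¹ * u j := by
    intro j hj
    rw [hx₀, map_smul, hU, co_vec he, if_pos hj]; rfl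
  have hc : 0 < ‖U‖⁻¹ := inv_pos.2 hU0
  have hfin : ∃ s : Finset ℕ, s.card = N ∧ ∀ j ∈ s, ‖U‖⁻¹ ≤ |co j (x - x₀)| := by
    by_cases h : ∃ i < N, 0 < co i x
    · obtain ⟨i, hi, hi2⟩ := h
      refine ⟨Finset.Ico N (N + N), by simp, fun j hj => ?_⟩
      rw [Finset.mem_Ico] at hj
      have h1 := hpos i hi2 j (by omega)
      rw [map_sub, hc0 j hj.2]
      simp only [u, if_neg (not_lt.2 hj.1)]
      exact le_trans (by linarith) (le_abs_self _)
    · push Not at h
      refine ⟨Finset.range N, by simp, fun j hj => ?_⟩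
      rw [Finset.mem_range] at hj
      have h1 := h j hj
      rw [map_sub, hc0 j (by omega)]
      simp only [u, if_pos hj]
      exact le_trans (by linarith) (neg_le_abs _)
  obtain ⟨s, hs1, hs2⟩ := hfin
  have h1 := fin_le hs (x - x₀) s
  have h2 : ∑ _j ∈ s, ‖U‖⁻¹ ^ 4 ≤ ∑ j ∈ s, co j (x - x₀) ^ 4 := Finset.sum_le_sum fun j hj => by
    rw [← Even.pow_abs (n := 4) (by decide) (co j (x - x₀))]
    exact pow_le_pow_left₀ hc.le (hs2 j hj) 4
  rw [Finset.sum_const, hs1, nsmul_eq_mul, inv_pow, hU4] at h2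
  have h3 : ‖x - x₀‖ ^ 4 ≤ (1 / 10) ^ 4 := pow_le_pow_left₀ (norm_nonneg _) a6.le 4
  have e3 : (N : ℝ) * (2 * (N : ℝ))⁻¹ = 1 / 2 := by field_simp
  rw [e3] at h2
  linarith

end Pool.Agent.H.MP_3cb207_an
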